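import Pool.Agent.Q97.Gamma.Geo

set_option autoImplicit false

/-!
# A plane in which the modulus `γ⁺` lies below its Hilbert space value

The plane carries the norm whose unit ball is the polygon with 60 sides given by the data of
`Pool.Agent.Q97.Gamma.Data`.
-/

namespace Pool.Agent.Results.MP_a1f11a_an.PolygonCounterexample

open Q97.Gamma

section Definitions

variable (X : Type) [NormedAddCommGroup X] [NormedSpace ℝ X]

variable {X} in
/-- The set `J₁ x` of the norming functionals of `x`. -/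
def J1 (x : X) : Set (StrongDual ℝ X) := {p | ‖p‖ = 1 ∧ p x = ‖x‖}

/-- The set of the numbers `⟨p₁ - p₂, x₁ - x₂⟩` with `x₁`, `x₂` in the unit sphere,
`‖x₁ - x₂‖ = ε` and `pᵢ ∈ J₁ xᵢ`. -/
def gammaSet (ε : ℝ) : Set ℝ :=
  {a | ∃ x₁ x₂ : X, ‖x₁‖ = 1 ∧ ‖x₂‖ = 1 ∧ ‖x₁ - x₂‖ = ε ∧
    ∃ p₁ ∈ J1 x₁, ∃ p₂ ∈ J1 x₂, a = (p₁ - p₂) (x₁ - x₂)}

/-- The modulus `γ⁺` of `X`. -/
noncomputable def gammaPlus (ε : ℝ) : ℝ := sSup (gammaSet X ε)

end Definitions

theorem exists_dist (X : Type) [NormedAddCommGroup X] [NormedSpace ℝ X]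
    (h : 1 < Module.rank ℝ X) {ε : ℝ} (h0 : 0 ≤ ε) (h2 : ε ≤ 2) :
    ∃ x₁ x₂ : X, ‖x₁‖ = 1 ∧ ‖x₂‖ = 1 ∧ ‖x₁ - x₂‖ = ε := by
  have hnt : Nontrivial X := by
    rw [← rank_pos_iff_nontrivial (R := ℝ)]
    exact lt_trans zero_lt_one h
  obtain ⟨x, hx⟩ := exists_norm_eq X zero_le_one
  have hS := isPreconnected_sphere h (0 : X) 1
  have hx1 : x ∈ Metric.sphere (0 : X) 1 := mem_sphere_zero_iff_norm.mpr hx
  have hx2 : -x ∈ Metric.sphere (0 : X) 1 := by
    rw [mem_sphere_zero_iff_norm, norm_neg, hx]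
  have hcont : ContinuousOn (fun y : X => ‖x - y‖) (Metric.sphere (0 : X) 1) := by fun_prop
  have hI := hS.intermediate_value hx1 hx2 hcont
  have e1 : ‖x - x‖ = 0 := by rw [sub_self, norm_zero]
  have e2 : ‖x - -x‖ = 2 := by
    rw [sub_neg_eq_add, ← two_smul ℝ x, norm_smul, hx]
    norm_num
  simp only [e1, e2] at hI
  obtain ⟨y, hy, hxy⟩ := hI ⟨h0, h2⟩
  exact ⟨x, y, hx, mem_sphere_zero_iff_norm.mp hy, hxy⟩

theorem exists_norming {X : Type} [NormedAddCommGroup X] [NormedSpace ℝ X] {x : X}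
    (hx : ‖x‖ = 1) : (J1 x).Nonempty := by
  obtain ⟨p, hp, hpx⟩ := exists_dual_vector ℝ x (by rw [hx]; exact one_ne_zero)
  exact ⟨p, hp, by simpa using hpx⟩

theorem finrank_eq : Module.finrank ℝ E.Space = 2 := by
  rw [← LinearEquiv.finrank_eq E.toSpace]
  simp

theorem bound {a : ℝ} (ha : a ∈ gammaSet E.Space (293 / 200)) : a ≤ 1073 / 500 := by
  obtain ⟨x₁, x₂, h1, h2, h12, p₁, ⟨hp1, hp1x⟩, p₂, ⟨hp2, hp2x⟩, rfl⟩ := ha
  have hle : ∀ p : StrongDual ℝ E.Space, ‖p‖ = 1 → ∀ v : ℝ × ℝ,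
      (p.toLinearMap.comp E.toSpace.toLinearMap) v ≤ E.N v := by
    intro p hp v
    have := (le_abs_self _).trans (p.le_opNorm (E.toSpace v))
    rw [hp, one_mul] at this
    exact this
  have hx1 : E.N (E.toSpace.symm x₁) = 1 := h1
  have hx2 : E.N (E.toSpace.symm x₂) = 1 := h2
  obtain ⟨i, hi, hix, hiy⟩ := exists_active (y := E.toSpace.symm x₂) hx1
    (p₁.toLinearMap.comp E.toSpace.toLinearMap) (by
      change p₁ x₁ = 1
      rw [hp1x, h1]) (hle p₁ hp1)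
  obtain ⟨j, hj, hjx, hjy⟩ := exists_active (y := E.toSpace.symm x₁) hx2
    (p₂.toLinearMap.comp E.toSpace.toLinearMap) (by
      change p₂ x₂ = 1
      rw [hp2x, h2]) (hle p₂ hp2)
  have hm := main_pair hi hj hx1 hx2 hix hjx (by
    have : E.N (E.toSpace.symm x₂ - E.toSpace.symm x₁) = ‖x₂ - x₁‖ := rfl
    rw [this, norm_sub_rev, h12])
  have e1 : L i (E.toSpace.symm x₂) ≤ p₁ x₂ := hiy
  have e2 : L j (E.toSpace.symm x₁) ≤ p₂ x₁ := hjy
  rw [sub_apply, map_sub, map_sub, hp1x, hp2x, h1, h2]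
  linarith

/-- There are a two-dimensional real normed space `X` and `ε ∈ [0, 2]` such that
`γ⁺_X(ε) < ε²`, the value of `γ⁺` for Hilbert spaces. -/
theorem result : ∃ (X : Type) (_ : NormedAddCommGroup X) (_ : NormedSpace ℝ X),
    Module.finrank ℝ X = 2 ∧ ∃ ε : ℝ, 0 ≤ ε ∧ ε ≤ 2 ∧ (gammaSet X ε).Nonempty ∧
      BddAbove (gammaSet X ε) ∧ gammaPlus X ε < ε ^ 2 := by
  have hne : (gammaSet E.Space (293 / 200)).Nonempty := by
    have hrank : 1 < Module.rank ℝ E.Space := by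
      have h1 := finrank_eq
      have h2 : Module.rank ℝ E.Space = 2 := by
        exact (Module.rank_eq_ofNat_iff_finrank_eq_ofNat (R := ℝ) (M := E.Space) 2).mpr h1
      rw [h2]
      norm_num
    obtain ⟨x₁, x₂, h1, h2, h12⟩ := exists_dist E.Space hrank (ε := 293 / 200) (by norm_num)
      (by norm_num)
    obtain ⟨p₁, hp1⟩ := exists_norming h1
    obtain ⟨p₂, hp2⟩ := exists_norming h2
    exact ⟨_, x₁, x₂, h1, h2, h12, p₁, hp1, p₂, hp2, rfl⟩
  refine ⟨E.Space, inferInstance, inferInstance, finrank_eq, 293 / 200, by norm_num, by norm_num,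
    hne, ⟨1073 / 500, fun a ha => bound ha⟩, ?_⟩
  refine lt_of_le_of_lt (csSup_le hne fun a ha => bound ha) ?_
  norm_num

end Pool.Agent.Results.MP_a1f11a_an.PolygonCounterexample
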